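import Pool.Agent.Helper7.PX.Goals

/-! # Packet PX-EX: many integers -/

set_option autoImplicit false

open Finset Filter Topology

open scoped Classical

namespace Pool.Agent.Helper19.PX

open Pool.Agent.Helper88.PP (pr Rg om Sf SS uu vv ee LA VV QQ cost)
open Pool.Agent.Helper88.RR (gg ab TB nz Db VM)
open Pool.Agent.Helper88.GM (NI XI In)
open Pool.Agent.Helper88.CG (pw qE mE)
open Pool.Agent.Helper88.TU (Su)
open Pool.Agent.Helper7.PX

theorem om_nonneg (y z : ℕ) : 0 ≤ om y z := by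
  unfold om
  refine Finset.prod_nonneg fun p hp => ?_
  simp only [pr, mem_filter] at hp
  have h1 : (1 : ℝ) ≤ p := by exact_mod_cast hp.2.one_le
  have h2 : 1 / (p : ℝ) ≤ 1 := by
    rw [div_le_one (by linarith)]
    exact h1
  linarith

theorem XI_nonneg (u v Q : ℕ) : 0 ≤ XI u v Q := by
  unfold XI
  positivity

/-- two simple sizes -/
theorem size2 {E z x y : ℕ} (hE : 1 ≤ E) (h : Su E z x y) : 2 ≤ z ∧ E ≤ y := by
  obtain ⟨a1, a2, a3, a4, a5⟩ := h
  have hE' : (1 : ℝ) ≤ E := by exact_mod_cast hE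
  have hz : (2 : ℝ) ≤ z := by
    have := Real.add_one_le_exp (E : ℝ)
    linarith
  have hz0 : (0 : ℝ) < z := by linarith
  have hw : (E : ℝ) ≤ Real.log z := by
    have := Real.log_le_log (Real.exp_pos _) a1
    rwa [Real.log_exp] at this
  have b2 : (E : ℝ) * Real.log z ≤ Real.log x := by
    rw [← Real.log_pow]
    exact Real.log_le_log (by positivity) (by exact_mod_cast a2)
  have b3 : (E : ℝ) ≤ y := by nlinarith
  exact ⟨by exact_mod_cast hz, by exact_mod_cast b3⟩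

theorem ex (hKQ : StmtKQ) (hRC : StmtRC) (hSU : StmtSU) (hTL : StmtTL) : StmtEX := by
  obtain ⟨c1, hc1, hc1', hKQ⟩ := hKQ
  obtain ⟨c2, hc2, hc2', hTL⟩ := hTL
  refine ⟨min c1 c2, lt_min hc1 hc2, (min_le_left _ _).trans hc1', fun t ht θ hθ => ?_⟩
  obtain ⟨E1, hKQ⟩ := hKQ t ht (θ / 8) (by positivity)
  obtain ⟨E2, hRC⟩ := hRC t ht
  obtain ⟨E3, hSU⟩ := hSU t ht
  obtain ⟨E4, hTL⟩ := hTL t ht 1 one_pos
  refine ⟨E1 + E2 + E3 + E4 + ⌈32 / θ⌉₊ + 2, fun E z x y hE hS b hb P B hP hB hcard Φ hΦ hmain => ?_⟩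
  have hE1 : E1 ≤ E := by omega
  have hE2 : E2 ≤ E := by omega
  have hE3 : E3 ≤ E := by omega
  have hE4 : E4 ≤ E := by omega
  have hE5 : ⌈32 / θ⌉₊ ≤ E := by omega
  have hE6 : 2 ≤ E := by omega
  have hEr : (2 : ℝ) ≤ E := by exact_mod_cast hE6
  have hE0 : (0 : ℝ) < E := by linarith
  have hEθ : 32 / θ ≤ (E : ℝ) := (Nat.le_ceil _).trans (by exact_mod_cast hE5)
  have hθE : 32 ≤ θ * E := by
    rw [div_le_iff₀ hθ] at hEθ
    linarith
  obtain ⟨hz, hEy⟩ := size2 (by omega) hS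
  have hlogE0 : 0 ≤ Real.log E := Real.log_nonneg (by linarith)
  have hlogE : Real.log E ≤ E := (Real.log_le_sub_one_of_pos hE0).trans (by linarith)
  have hEl0 : 0 ≤ (E : ℝ) * Real.log E := by positivity
  have hcardKQ : ((P.card : ℝ) + t ^ 2 * B.card) * om y z ≤ c1 * (E * Real.log E) :=
    hcard.trans (mul_le_mul_of_nonneg_right (min_le_left _ _) hEl0)
  have hcardTL : ((P.card : ℝ) + t ^ 2 * B.card) * om y z ≤ c2 * (E * Real.log E) :=
    hcard.trans (mul_le_mul_of_nonneg_right (min_le_right _ _) hEl0)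
  have hom := om_nonneg y z
  have hPom : (P.card : ℝ) * om y z ≤ (E : ℝ) ^ 2 := by
    have h1 : (P.card : ℝ) * om y z ≤ ((P.card : ℝ) + t ^ 2 * B.card) * om y z := by
      refine mul_le_mul_of_nonneg_right ?_ hom
      have : 0 ≤ t ^ 2 * (B.card : ℝ) := by positivity
      linarith
    have h2 : c1 * ((E : ℝ) * Real.log E) ≤ 1 * (E * E) := by
      refine mul_le_mul hc1' ?_ hEl0 zero_le_one
      exact mul_le_mul_of_nonneg_left hlogE hE0.le
    calc _ ≤ _ := h1
      _ ≤ _ := hcardKQ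
      _ ≤ _ := h2
      _ = (E : ℝ) ^ 2 := by ring
  obtain ⟨hD, hBd, -, -⟩ := hTL E z y hE4 hz hEy P B hP hB hcardTL
  have hkq := hKQ E z x y hE1 hS b hb P B hP hB hcardKQ
  have hrc := hRC E z x y hE2 hS b hb P hP hPom (cw E z B t) hBd
  have hsu := hSU E z x y hE3 hS P hP (cw E z B t) hBd
  have hX := XI_nonneg (x / 32) x (QQ x)
  change ∑ n ∈ NI (x / 32) x (QQ x) b, WN E z y B t P n ^ 2 *
    ((P.filter (fun h => Rg y z (n + h))).card : ℝ)
    ≤ XI (x / 32) x (QQ x) * ((P.card : ℝ) * om y z + E) * (DN E z y B t P + 1) at hrc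
  replace hsu : ∀ n : ℕ, n ≤ x → (P.filter (fun h => Rg y z (n + h))).card ≤ E ^ 3 →
    WN E z y B t P n ^ 2 ≤ Real.exp ((E : ℝ) ^ 2) := hsu
  set X := XI (x / 32) x (QQ x) with hXdef
  set D := DN E z y B t P with hDdef
  set N := NI (x / 32) x (QQ x) b with hNdef
  have hNx : ∀ n ∈ N, n ≤ x := by
    intro n hn
    rw [hNdef] at hn
    unfold NI at hn
    exact (mem_Ioc.1 (mem_filter.1 hn).1).2
  have hE3pos : (0 : ℝ) < (E : ℝ) ^ 3 := by positivity
  -- the error of the rough points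
  have hXD : 0 ≤ X * D := mul_nonneg hX (by linarith)
  have herr : (∑ n ∈ N, WN E z y B t P n ^ 2 * ((P.filter (fun h => Rg y z (n + h))).card : ℝ))
      / (E : ℝ) ^ 3 ≤ θ / 8 * (X * D) := by
    rw [div_le_iff₀ hE3pos]
    refine hrc.trans ?_
    have h1 : (P.card : ℝ) * om y z + E ≤ 2 * (E : ℝ) ^ 2 := by nlinarith
    have h2 : D + 1 ≤ 2 * D := by linarith
    have h0 : 0 ≤ (P.card : ℝ) * om y z + E := by positivity
    have h3 : ((P.card : ℝ) * om y z + E) * (D + 1) ≤ 2 * (E : ℝ) ^ 2 * (2 * D) :=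
      mul_le_mul h1 h2 (by linarith) (by positivity)
    have h4 : X * ((P.card : ℝ) * om y z + E) * (D + 1) ≤ X * (2 * (E : ℝ) ^ 2 * (2 * D)) := by
      rw [mul_assoc]
      exact mul_le_mul_of_nonneg_left h3 hX
    refine h4.trans ?_
    have h5 : X * (2 * (E : ℝ) ^ 2 * (2 * D)) = 4 * ((E : ℝ) ^ 2 * (X * D)) := by ring
    have h6 : θ / 8 * (X * D) * (E : ℝ) ^ 3 = (θ * E) / 8 * ((E : ℝ) ^ 2 * (X * D)) := by ring
    rw [h5, h6]
    refine mul_le_mul_of_nonneg_right (by linarith) (by positivity)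
  -- the sum of the bracket
  have hsum : θ / 2 * (X * D) ≤ ∑ n ∈ N, WN E z y B t P n ^ 2 * (Φ n -
      (((P \ B).filter (fun h => (n + h).Prime)).card : ℝ) -
      ((P.filter (fun h => Rg y z (n + h))).card : ℝ) / (E : ℝ) ^ 3) := by
    have h1 : ∑ n ∈ N, WN E z y B t P n ^ 2 * (Φ n -
      (((P \ B).filter (fun h => (n + h).Prime)).card : ℝ) -
      ((P.filter (fun h => Rg y z (n + h))).card : ℝ) / (E : ℝ) ^ 3) =
      ∑ n ∈ N, WN E z y B t P n ^ 2 * Φ n -
      ∑ n ∈ N, WN E z y B t P n ^ 2 * (((P \ B).filter (fun h => (n + h).Prime)).card : ℝ) -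
      (∑ n ∈ N, WN E z y B t P n ^ 2 * ((P.filter (fun h => Rg y z (n + h))).card : ℝ))
      / (E : ℝ) ^ 3 := by
      rw [sum_div, ← sum_sub_distrib, ← sum_sub_distrib]
      refine sum_congr rfl fun n _ => ?_
      ring
    rw [h1]
    have h2 : θ / 2 * (X * D) ≤ θ * (X * D) - θ / 8 * (X * D) - θ / 8 * (X * D) := by nlinarith
    linarith
  -- the upper bound
  have hup : ∑ n ∈ N, WN E z y B t P n ^ 2 * (Φ n -
      (((P \ B).filter (fun h => (n + h).Prime)).card : ℝ) -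
      ((P.filter (fun h => Rg y z (n + h))).card : ℝ) / (E : ℝ) ^ 3) ≤
      Real.exp ((E : ℝ) ^ 2) * ((N.filter (fun n => 0 < Φ n ∧
        ∀ h ∈ P \ B, ¬ (n + h).Prime)).card : ℝ) := by
    have h1 : ∀ n ∈ N, WN E z y B t P n ^ 2 * (Φ n -
      (((P \ B).filter (fun h => (n + h).Prime)).card : ℝ) -
      ((P.filter (fun h => Rg y z (n + h))).card : ℝ) / (E : ℝ) ^ 3) ≤
      if 0 < Φ n ∧ ∀ h ∈ P \ B, ¬ (n + h).Prime then Real.exp ((E : ℝ) ^ 2) else 0 := by
      intro n hn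
      have hW : 0 ≤ WN E z y B t P n ^ 2 := sq_nonneg _
      have hΦn := hΦ n
      have hk : (0 : ℝ) ≤ (((P \ B).filter (fun h => (n + h).Prime)).card : ℝ) :=
        Nat.cast_nonneg _
      have hro : (0 : ℝ) ≤ ((P.filter (fun h => Rg y z (n + h))).card : ℝ) / (E : ℝ) ^ 3 := by
        positivity
      rcases le_or_gt (Φ n - (((P \ B).filter (fun h => (n + h).Prime)).card : ℝ) -
        ((P.filter (fun h => Rg y z (n + h))).card : ℝ) / (E : ℝ) ^ 3) 0 with h2 | h2
      · refine (mul_nonpos_of_nonneg_of_nonpos hW h2).trans ?_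
        split_ifs
        · exact (Real.exp_pos _).le
        · exact le_rfl
      · have h3 : (((P \ B).filter (fun h => (n + h).Prime)).card : ℝ) < 1 := by linarith
        have h4 : ((P \ B).filter (fun h => (n + h).Prime)).card = 0 := by
          have : ((P \ B).filter (fun h => (n + h).Prime)).card < 1 := by exact_mod_cast h3
          omega
        have h5 : ∀ h ∈ P \ B, ¬ (n + h).Prime := by
          rw [card_eq_zero, filter_eq_empty_iff] at h4
          exact fun h hh => h4 hh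
        have h6 : 0 < Φ n := by linarith
        rw [if_pos ⟨h6, h5⟩]
        have h7 : ((P.filter (fun h => Rg y z (n + h))).card : ℝ) / (E : ℝ) ^ 3 < 1 := by
          linarith
        rw [div_lt_one hE3pos] at h7
        have h8 : (P.filter (fun h => Rg y z (n + h))).card ≤ E ^ 3 := by
          exact_mod_cast h7.le
        have h9 := hsu n (hNx n hn) h8
        calc _ ≤ WN E z y B t P n ^ 2 * 1 :=
              mul_le_mul_of_nonneg_left (by linarith) hW
          _ = WN E z y B t P n ^ 2 := mul_one _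
          _ ≤ _ := h9
    have h2 := sum_le_sum h1
    rw [← sum_filter, sum_const, nsmul_eq_mul, mul_comm] at h2
    exact h2
  have hfin := hsum.trans hup
  have hXle : X ≤ X * D := le_mul_of_one_le_right hX hD
  have hexp : Real.exp (-(E : ℝ) ^ 2) * Real.exp ((E : ℝ) ^ 2) = 1 := by
    rw [← Real.exp_add]
    simp
  have hep := Real.exp_pos (-(E : ℝ) ^ 2)
  calc θ / 4 * (Real.exp (-(E : ℝ) ^ 2) * X)
      ≤ Real.exp (-(E : ℝ) ^ 2) * (θ / 2 * (X * D)) := by
        have h1 : θ / 4 * X ≤ θ / 2 * (X * D) := by nlinarith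
        have h2 := mul_le_mul_of_nonneg_left h1 hep.le
        linarith
    _ ≤ Real.exp (-(E : ℝ) ^ 2) * (Real.exp ((E : ℝ) ^ 2) * ((N.filter (fun n => 0 < Φ n ∧
        ∀ h ∈ P \ B, ¬ (n + h).Prime)).card : ℝ)) :=
        mul_le_mul_of_nonneg_left hfin hep.le
    _ = ((N.filter (fun n => 0 < Φ n ∧ ∀ h ∈ P \ B, ¬ (n + h).Prime)).card : ℝ) := by
        rw [← mul_assoc, hexp, one_mul]

end Pool.Agent.Helper19.PX
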